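import Pool.Agent.H88.Cryst.Irr

set_option autoImplicit false

/-!
# An irreducible split crystallographic group which is not homogeneous

The group is `G = T ⋊ H` with `T = ℤ[ζ₂₀] ≅ ℤ⁸` and `H` the group of order 80 of all maps
`x ↦ ζ^a σ^c(x)`, where `ζ = ζ₂₀` and `σ` is the Galois automorphism `ζ ↦ ζ³`, whose fixed field in
`ℚ(ζ₂₀)` is `ℚ(√-5)` (class number `2`). The pairs `(ζ, σ)` and `(ζ, i σ)`, `i = ζ⁵`, of elements of
`H` have the same type: conjugation by `1 + i` maps the first pair to the second one, and the
lattices `T` and `(1 + i) T = 𝔭 T` (`𝔭` the prime of `ℤ[√-5]` above `2`, which is not principal) are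
in the same genus, so that an ultrapower of `G` has an automorphism mapping one pair to the other.
They are not related by an automorphism of `G` as `T` and `𝔭 T` are not isomorphic: the elements
`r = a (1 + i) + b (i + (1 - i) w)`, `w = (1 + √5) / 2`, inducing possible semilinear maps satisfy
`r r̄ = 2 a² + 2 a b + 3 b² ≠ 1`.
-/

namespace Pool.Agent.Results.MP_881be3_lc.NotHomogeneous

open Pool.Agent.H88.Cryst

/-- There is a split irreducible crystallographic group of dimension `8` which is not
homogeneous. -/
theorem result : ∃ G : Subgroup (Isom 8),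
    IsCrystallographic G ∧ IsSplit G ∧ IsIrreducible G ∧ ¬ IsHomogeneous G := by
  obtain ⟨β, hβ⟩ := exists_invariant grpH
  refine ⟨(psi grpH β hβ).range, range_isCrystallographic grpH β hβ, range_isSplit grpH β hβ,
    range_isIrreducible grpH β hβ grpH_irreducible, ?_⟩
  intro hhom
  exact not_homogeneous_SD
    (isHomogeneous_of_equiv (MonoidHom.ofInjective (psi_injective grpH β hβ)).symm hhom)

end Pool.Agent.Results.MP_881be3_lc.NotHomogeneous
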